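import Mathlib

set_option autoImplicit false

namespace Pool.Agent.Results.MP_d7bb9e_an.Quartic

open Set

/-- admissible truncation levels -/
def Lev (f : ℝ → ℝ) : Set ℝ :=
  {q | (∀ m, (∀ x, m ≤ f x) → m ≤ q) ∧ ∀ r ≥ q, ConvexOn ℝ univ fun x => max r (f x)}

/-- hypotheses (H) in dimension one -/
def H (f : ℝ → ℝ) : Prop :=
  ContDiff ℝ 2 f ∧ (∀ x, deriv f x = 0 → deriv (deriv f) x ≠ 0) ∧ ¬ ConvexOn ℝ univ f ∧
  ∃ c, IsGLB (Lev f) c ∧ (Lev f).Nonempty ∧ c ∈ range f ∧ (∀ x, f x = c → deriv f x ≠ 0) ∧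
    ∀ x, c < f x → 0 < deriv (deriv f) x

def f (x : ℝ) : ℝ := x ^ 4 - 6 * x ^ 2 + 72 * x

lemma d1 : deriv f = fun x => 4 * x ^ 3 - 12 * x + 72 := funext fun x => by
  have := (((hasDerivAt_pow 4 x).sub ((hasDerivAt_pow 2 x).const_mul 6)).add
    ((hasDerivAt_id x).const_mul 72)).deriv
  exact this.trans (by push_cast; ring)

lemma d2 : deriv (deriv f) = fun x => 12 * x ^ 2 - 12 := funext fun x => by
  have := ((((hasDerivAt_pow 3 x).const_mul 4).sub ((hasDerivAt_id x).const_mul 12)).add_const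
    72).deriv
  rw [d1]
  exact this.trans (by push_cast; ring)

lemma cr {x : ℝ} : deriv f x = 0 ↔ x = -3 := by
  rw [d1]
  refine ⟨fun h => ?_, fun h => by norm_num [h]⟩
  have : (x + 3) * ((x - 3 / 2) ^ 2 + 15 / 4) = 0 := by linarith
  rcases mul_eq_zero.1 this with h | h
  · linarith
  · nlinarith [sq_nonneg (x - 3 / 2)]

lemma mid {x : ℝ} (h1 : -3 ≤ x) (h2 : x ≤ 1) : f x ≤ 67 := by
  have : f x - 67 = (x - 1) * (x ^ 3 + x ^ 2 - 5 * x + 67) := by unfold f; ring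
  have : 0 ≤ x ^ 3 + x ^ 2 - 5 * x + 67 := by nlinarith [mul_nonneg (sub_nonneg.2 h1) (sq_nonneg (x - 1))]
  nlinarith

lemma cvx {r : ℝ} (hr : 67 ≤ r) : ConvexOn ℝ univ fun x => max r (f x) := by
  have sup : ∀ x p, (1 ≤ p ∨ p ≤ -3) → f p + (4 * p ^ 3 - 12 * p + 72) * (x - p) ≤ max r (f x) := by
    intro x p hp
    have e : f x - (f p + (4 * p ^ 3 - 12 * p + 72) * (x - p)) =
        (x - p) ^ 2 * ((x + p) ^ 2 + 2 * p ^ 2 - 6) := by unfold f; ring
    by_cases h : 0 ≤ (x + p) ^ 2 + 2 * p ^ 2 - 6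
    · exact le_max_of_le_right (by nlinarith [mul_nonneg (sq_nonneg (x - p)) h])
    · have h1 : 1 ≤ p := hp.resolve_right fun h' => by nlinarith [sq_nonneg (x + p)]
      have h2 : x ≤ 1 := by nlinarith
      have h3 : 0 ≤ 4 * p ^ 3 - 12 * p + 72 := by nlinarith [mul_nonneg (sub_nonneg.2 h1) (sq_nonneg p)]
      have h4 : f p + (4 * p ^ 3 - 12 * p + 72) * (1 - p) = 67 - (p - 1) ^ 3 * (3 * p + 5) := by
        unfold f; ring
      have h5 : 0 ≤ (p - 1) ^ 3 * (3 * p + 5) := mul_nonneg (pow_nonneg (by linarith) 3) (by linarith)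
      exact le_max_of_le_left (by nlinarith)
  refine ⟨convex_univ, fun x _ y _ a b ha hb h => ?_⟩
  simp only [smul_eq_mul]
  have l : r ≤ a * max r (f x) + b * max r (f y) := by
    nlinarith [mul_le_mul_of_nonneg_left (le_max_left r (f x)) ha,
      mul_le_mul_of_nonneg_left (le_max_left r (f y)) hb]
  refine max_le l ?_
  by_cases hp : 1 ≤ a * x + b * y ∨ a * x + b * y ≤ -3
  · have h1 := mul_le_mul_of_nonneg_left (sup x _ hp) ha
    have h2 := mul_le_mul_of_nonneg_left (sup y _ hp) hb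
    obtain rfl : b = 1 - a := by linarith
    nlinarith
  · push Not at hp
    linarith [mid hp.2.le hp.1.le]

theorem result : ∃ f : ℝ → ℝ, H f ∧ {x | deriv f x = 0}.ncard = 1 ∧
    ∃ y, {x | deriv f x = y}.ncard = 3 := by
  have nc : ∀ r < 67, ¬ ConvexOn ℝ univ fun x => max r (f x) := by
    intro r hr h
    have hc : Continuous f := by unfold f; fun_prop
    obtain ⟨t, t1, t2, t3⟩ : ∃ t, r < f t ∧ 0 < t ∧ t < 1 := by
      have h1 : ∀ᶠ t in nhdsWithin (1 : ℝ) (Iio 1), r < f t :=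
        (hc.continuousAt.eventually (lt_mem_nhds (by norm_num [f, hr]))).filter_mono nhdsWithin_le_nhds
      obtain ⟨t, h1, h2⟩ := (h1.and (Ioo_mem_nhdsLT zero_lt_one)).exists
      exact ⟨t, h1, h2⟩
    have := h.2 (mem_univ t) (mem_univ 1) one_half_pos.le one_half_pos.le (by norm_num)
    simp only [smul_eq_mul] at this
    rw [max_eq_right t1.le, max_eq_right (show r ≤ f 1 by norm_num [f, hr.le])] at this
    have h2 := (le_max_right _ _).trans this
    have e : 1 / 2 * f t + 1 / 2 * f 1 - f (1 / 2 * t + 1 / 2 * 1) =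
        (1 - t) ^ 2 * (7 * t ^ 2 + 10 * t - 17) / 16 := by unfold f; ring
    have : (1 - t) ^ 2 * (7 * t ^ 2 + 10 * t - 17) < 0 :=
      mul_neg_of_pos_of_neg (pow_pos (by linarith) 2) (by nlinarith)
    linarith
  have m : (67 : ℝ) ∈ Lev f := ⟨fun m h => (h 1).trans (by norm_num [f]), fun r hr => cvx hr⟩
  refine ⟨f, ⟨by unfold f; fun_prop, fun x h => by norm_num [cr.1 h, d2], fun h => nc 0 (by norm_num)
    ((convexOn_const 0 convex_univ).sup h), 67, IsLeast.isGLB ⟨m, fun q hq => not_lt.1 fun h =>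
    nc q h (hq.2 q le_rfl)⟩, ⟨_, m⟩, ⟨1, by norm_num [f]⟩, fun x h h' => by
      norm_num [cr.1 h', f] at h, fun x h => ?_⟩, by simp [cr], 72, ?_⟩
  · rw [d2]
    by_contra h'
    exact h.not_ge (mid (by nlinarith) (by nlinarith))
  · have s := Real.sq_sqrt (show (0 : ℝ) ≤ 3 by norm_num)
    have p := Real.sqrt_pos.2 (show (0 : ℝ) < 3 by norm_num)
    refine ncard_eq_three.2 ⟨0, √3, -√3, p.ne, by linarith, by linarith, Set.ext fun x => ?_⟩
    have : deriv f x - 72 = 4 * (x * ((x - √3) * (x - -√3))) := by rw [d1]; linear_combination 4 * x * s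
    rw [mem_ofPred_eq, ← sub_eq_zero, this]
    simp [sub_eq_zero, add_eq_zero_iff_eq_neg]

end Pool.Agent.Results.MP_d7bb9e_an.Quartic
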